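import Pool.Agent.Run7.h608.TK.Iface

set_option autoImplicit false

/-! Pieces CPT, FAT, EXT of the project TK (MP_cc494f_an). -/

open MeasureTheory Set Filter Topology
open scoped ENNReal
open R109.GT

namespace Run7.h648.TK

open Run7.h608.TK

theorem t_CPT : S_CPT := by
  intro w hw
  let K : Set (ℕ → ℤ → ℤ) := Set.pi univ fun _ => Set.pi univ fun _ => {1, -1}
  have hK : IsCompact K :=
    isCompact_univ_pi fun _ => isCompact_univ_pi fun _ => (Set.toFinite _).isCompact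
  have hwK : ∀ k, w k ∈ K := fun k m _ j _ => hw k m j
  obtain ⟨v, hv, φ, hφ, hlim⟩ := hK.tendsto_subseq hwK
  refine ⟨φ, hφ, v, fun m j => hv m trivial j trivial, fun m j => ?_⟩
  have h1 := (tendsto_pi_nhds.1 ((tendsto_pi_nhds.1 hlim) m)) j
  rw [nhds_discrete, tendsto_pure] at h1
  exact h1

lemma tak_tendsto (w : ℕ → ℕ → ℤ → ℤ) (v : ℕ → ℤ → ℤ) (hw : ∀ k, Sgn (w k))
    (h : ∀ (m : ℕ) (j : ℤ), ∀ᶠ k in atTop, w k m j = v m j) (t : ℝ) :
    Tendsto (fun k => tak (w k) t) atTop (𝓝 (tak v t)) := by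
  unfold tak
  refine tendsto_tsum_of_dominated_convergence (bound := fun n : ℕ => (1:ℝ) / 2 / 2 ^ n)
    hasSum_geo.summable ?_ ?_
  · intro n
    refine Tendsto.congr' (f₁ := fun _ => _) ?_ tendsto_const_nhds
    filter_upwards [h n ⌊(2:ℝ) ^ n * t⌋] with k hk
    rw [hk]
  · refine Eventually.of_forall fun k n => ?_
    exact term_bound (w k) (hw k) n t

theorem t_FAT : S_FAT := by
  intro w v hw hv h a b
  have hmv : Measurable (tak v) := (cont v hv).measurable
  have hmw : ∀ k, Measurable (tak (w k)) := fun k => (cont (w k) (hw k)).measurable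
  have e1 : occ v (Ioo a b) = ∫⁻ t in Ico (0:ℝ) 1, (tak v ⁻¹' Ioo a b).indicator 1 t := by
    rw [occ, Measure.map_apply hmv measurableSet_Ioo, lintegral_indicator_one
      (hmv measurableSet_Ioo)]
  have e2 : ∀ k, occ (w k) (Icc a b)
      = ∫⁻ t in Ico (0:ℝ) 1, (tak (w k) ⁻¹' Icc a b).indicator 1 t := by
    intro k
    rw [occ, Measure.map_apply (hmw k) measurableSet_Icc, lintegral_indicator_one
      ((hmw k) measurableSet_Icc)]
  rw [e1]
  simp_rw [e2]
  refine le_trans (lintegral_mono fun t => ?_) (lintegral_liminf_le fun k =>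
    measurable_one.indicator ((hmw k) measurableSet_Icc))
  by_cases ht : t ∈ tak v ⁻¹' Ioo a b
  · rw [indicator_of_mem ht]
    refine le_liminf_of_le (by isBoundedDefault) ?_
    have h2 := (tak_tendsto w v hw h t).eventually (Ioo_mem_nhds ht.1 ht.2)
    filter_upwards [h2] with k hk
    rw [indicator_of_mem (show t ∈ tak (w k) ⁻¹' Icc a b from ⟨hk.1.le, hk.2.le⟩)]
  · rw [indicator_of_notMem ht]
    exact zero_le

lemma occ_univ (w : ℕ → ℤ → ℤ) (hw : Sgn w) : occ w (Icc (-1) 1) = 1 := by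
  have hm : Measurable (tak w) := (cont w hw).measurable
  rw [occ, Measure.map_apply hm measurableSet_Icc]
  have : tak w ⁻¹' Icc (-1) 1 = univ := by
    ext x
    simp only [mem_preimage, mem_Icc, mem_univ, iff_true]
    exact abs_le.1 (bound w hw x)
  rw [this]
  simp

lemma half_le (w : ℕ → ℤ → ℤ) (D : ℝ) (hw : Sgn w) (h : Bd w D) : 1 / 2 ≤ D := by
  have h1 := h (Icc (-1) 1)
  rw [occ_univ w hw, Measure.smul_apply, Real.volume_Icc, smul_eq_mul] at h1
  by_contra hD
  rw [not_le] at hD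
  have h2 : ENNReal.ofReal D * ENNReal.ofReal (1 - -1) < 1 := by
    rcases le_or_gt D 0 with h0 | h0
    · rw [ENNReal.ofReal_of_nonpos h0, zero_mul]
      exact zero_lt_one
    · rw [← ENNReal.ofReal_mul h0.le, ← ENNReal.ofReal_one, ENNReal.ofReal_lt_ofReal_iff one_pos]
      linarith
  exact absurd h1 (not_le.2 h2)

theorem t_EXT : S_CPT → S_FAT → S_BDC → S_EXT := by
  intro hC hF hB ⟨w0, D1, hw0, hD1⟩
  let A : Set ℝ := {D | ∃ w, Sgn w ∧ Bd w D}
  have hne : A.Nonempty := ⟨D1, w0, hw0, hD1⟩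
  have hbd : BddBelow A := ⟨1 / 2, by
    rintro D ⟨w, hw, hD⟩
    exact half_le w D hw hD⟩
  have hge : 1 / 2 ≤ sInf A := le_csInf hne (by
    rintro D ⟨w, hw, hD⟩
    exact half_le w D hw hD)
  obtain ⟨D, -, hDlim, hDA⟩ := exists_seq_tendsto_sInf hne hbd
  choose w hw hwD using hDA
  obtain ⟨φ, hφ, v, hv, hvw⟩ := hC w hw
  have hlim : Tendsto (fun k => D (φ k)) atTop (𝓝 (sInf A)) := hDlim.comp hφ.tendsto_atTop
  refine ⟨sInf A, hge, by linarith, ⟨v, hv, ?_⟩, fun w' D' hw' hD' => csInf_le hbd ⟨w', hw', hD'⟩⟩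
  refine hB v _ hv (by linarith) fun a b hab => ?_
  refine (hF (fun k => w (φ k)) v (fun k => hw _) hv hvw a b).trans ?_
  have hab' : (a:ℝ) < b := by exact_mod_cast hab
  have h3 : Tendsto (fun k => ENNReal.ofReal (D (φ k) * ((b:ℝ) - a))) atTop
      (𝓝 (ENNReal.ofReal (sInf A * ((b:ℝ) - a)))) :=
    (ENNReal.continuous_ofReal.tendsto _).comp (hlim.mul_const _)
  rw [← h3.liminf_eq]
  refine liminf_le_liminf (Eventually.of_forall fun k => ?_)
  have h4 := hwD (φ k) (Icc (a:ℝ) b)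
  rw [Measure.smul_apply, Real.volume_Icc, smul_eq_mul, ← ENNReal.ofReal_mul] at h4
  · exact h4
  · linarith [half_le _ _ (hw (φ k)) (hwD (φ k))]

end Run7.h648.TK
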